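import Pool.Agent.Y5.S2.Stm
import Pool.Agent.Y301.G.UNI

/-!
# Uniqueness and the energy identity for smooth solutions of the Navier-Stokes equations with an
additional skew-adjoint term (`S_UNI6`)
-/

open Set Filter Topology MeasureTheory

set_option autoImplicit false

namespace Pool.Agent.Z864.S2

open Pool.Agent.Y5 Pool.Agent.Y5.D Pool.Agent.Y5.E Pool.Agent.Y5.F Pool.Agent.Y5.S2
open Pool.Agent.Y5.G (OB)
open Pool.Agent.Y301.G
open Pool.Agent.Y248.ND (bil_anti)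

/-- termwise differentiation on an interval (one-sided at the ends) -/
lemma hasDerivWithinAt_series {I : Type} {f f' : I → ℝ → ℝ} {u : I → ℝ} {T' t : ℝ}
    (ht : t ∈ Icc 0 T') (hu : Summable u)
    (hf : ∀ i, ∀ s ∈ Icc 0 T', HasDerivWithinAt (f i) (f' i s) (Icc 0 T') s)
    (hb : ∀ i, ∀ s ∈ Icc 0 T', ‖f' i s‖ ≤ u i)
    (hs : ∀ s ∈ Icc 0 T', Summable (fun i => f i s)) :
    HasDerivWithinAt (fun s => ∑' i, f i s) (∑' i, f' i t) (Icc 0 T') t := by
  rw [hasDerivWithinAt_iff_tendsto_slope]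
  have h1 : Tendsto (fun s => ∑' i, slope (f i) t s) (𝓝[Icc 0 T' \ {t}] t)
      (𝓝 (∑' i, f' i t)) := by
    refine tendsto_tsum_of_dominated_convergence (bound := u) hu (fun i => ?_) ?_
    · exact hasDerivWithinAt_iff_tendsto_slope.1 (hf i t ht)
    · filter_upwards [self_mem_nhdsWithin] with s hs' i
      have h2 := (convex_Icc 0 T').norm_image_sub_le_of_norm_hasDerivWithin_le (f := f i)
        (f' := f' i) (C := u i) (fun x hx => hf i x hx) (fun x hx => hb i x hx) ht hs'.1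
      rw [slope_def_field, norm_div]
      have hne : s - t ≠ 0 := sub_ne_zero.2 (fun h => hs'.2 h)
      rw [div_le_iff₀ (norm_pos_iff.2 hne)]
      exact h2
  refine h1.congr' ?_
  filter_upwards [self_mem_nhdsWithin] with s hs'
  rw [slope_def_field, ← (hs s hs'.1).tsum_sub (hs t ht), ← tsum_div_const]
  exact tsum_congr fun i => by rw [slope_def_field]

section
variable {I : Type} {F : I → ℝ} {e : I → Fam} {σ : I → I} {s : I → ℝ} {ν T : ℝ}

/-- uniform bounds -/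
lemma exBd6 {T' : ℝ} {V : ℝ → Fam} (h : FSol ν e σ s T V) (hT : T' < T) :
    ∃ M, ∀ t ∈ Icc 0 T', Bd M (V t) := by
  obtain ⟨M0, h0⟩ := h.rap 0 T' hT
  obtain ⟨Mn, hn⟩ := h.rap 7 T' hT
  refine ⟨2 ^ 7 * (M0 + Mn), fun t ht k => ?_⟩
  have h1 : (1 + ‖vec k‖) ^ 7 ≤ 2 ^ 7 * (1 + ‖vec k‖ ^ 7) := by
    rcases le_total ‖vec k‖ 1 with h | h
    · calc (1 + ‖vec k‖) ^ 7 ≤ 2 ^ 7 := by
            gcongr; linarith
        _ ≤ 2 ^ 7 * (1 + ‖vec k‖ ^ 7) := le_mul_of_one_le_right (by positivity) (by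
            have : 0 ≤ ‖vec k‖ ^ 7 := by positivity
            linarith)
    · calc (1 + ‖vec k‖) ^ 7 ≤ (2 * ‖vec k‖) ^ 7 := by
            gcongr; linarith
        _ = 2 ^ 7 * ‖vec k‖ ^ 7 := mul_pow _ _ _
        _ ≤ 2 ^ 7 * (1 + ‖vec k‖ ^ 7) := by gcongr; linarith
  calc (1 + ‖vec k‖) ^ 7 * ‖V t k‖ ≤ 2 ^ 7 * (1 + ‖vec k‖ ^ 7) * ‖V t k‖ := by gcongr
    _ = 2 ^ 7 * (‖vec k‖ ^ 0 * ‖V t k‖ + ‖vec k‖ ^ 7 * ‖V t k‖) := by ring
    _ ≤ 2 ^ 7 * (M0 + Mn) := by gcongr <;> [exact h0 t ht k; exact hn t ht k]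

/-! ### The Dirichlet form -/

lemma g_le (h : OB F e) (a : I) {Z : Fam} {M : ℝ} (hZ : ∀ k, ‖Z k‖ ≤ M) (k : Z3) :
    ‖‖vec k‖ ^ 2 • Z k‖ * ‖e a k‖ ≤ M * F a ^ 2 * ‖e a k‖ := by
  by_cases hk : e a k = 0
  · simp [hk]
  · have h1 := (h.fsupp a k hk).2
    have h2 : ‖vec k‖ ^ 2 ≤ F a ^ 2 := pow_le_pow_left₀ (norm_nonneg _) h1 2
    have hM : 0 ≤ M := (norm_nonneg _).trans (hZ k)
    rw [norm_smul, norm_pow, norm_norm]
    refine mul_le_mul_of_nonneg_right ?_ (norm_nonneg _)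
    calc ‖vec k‖ ^ 2 * ‖Z k‖ ≤ F a ^ 2 * M := mul_le_mul h2 (hZ k) (norm_nonneg _) (by positivity)
      _ = M * F a ^ 2 := mul_comm _ _

lemma g_sum (h : OB F e) (a : I) {Z : Fam} {M : ℝ} (hZ : ∀ k, ‖Z k‖ ≤ M) :
    Summable (fun k => ‖‖vec k‖ ^ 2 • Z k‖ * ‖e a k‖) :=
  Summable.of_nonneg_of_le (fun _ => by positivity) (g_le h a hZ) ((e_sum h a).mul_left _)

lemma g_tsum (h : OB F e) (a : I) {Z : Fam} {M : ℝ} (hZ : ∀ k, ‖Z k‖ ≤ M) :
    ∑' k, ‖‖vec k‖ ^ 2 • Z k‖ * ‖e a k‖ ≤ M * F a ^ 3 := by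
  have hM : 0 ≤ M := (norm_nonneg _).trans (hZ 0)
  have hF : 0 ≤ F a := by linarith [h.F1 a]
  refine ((g_sum h a hZ).tsum_le_tsum (g_le h a hZ) ((e_sum h a).mul_left _)).trans ?_
  rw [tsum_mul_left]
  calc M * F a ^ 2 * ∑' k, ‖e a k‖ ≤ M * F a ^ 2 * F a := by
        gcongr
        exact h.l1 a
    _ = M * F a ^ 3 := by ring

lemma lp_term_sum (h : OB F e) (a : I) {Z : Fam} {M : ℝ} (hZ : ∀ k, ‖Z k‖ ≤ M) :
    Summable (fun k => ‖vec k‖ ^ 2 * (inner ℝ (Z k) (e a k) : ℝ)) := by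
  refine Summable.of_norm_bounded (g_sum h a hZ) (fun k => ?_)
  have h1 := norm_inner_le_norm (𝕜 := ℝ) (‖vec k‖ ^ 2 • Z k) (e a k)
  rw [real_inner_smul_left] at h1
  exact h1

lemma lp_le (h : OB F e) (a : I) {Z : Fam} {M : ℝ} (hZ : ∀ k, ‖Z k‖ ≤ M) :
    |lp Z (e a)| ≤ (2 * Real.pi) ^ 2 * (M * F a ^ 3) := by
  unfold S2.lp
  rw [abs_mul, abs_of_nonneg (by positivity : (0 : ℝ) ≤ (2 * Real.pi) ^ 2)]
  refine mul_le_mul_of_nonneg_left ?_ (by positivity)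
  refine le_trans ?_ (g_tsum h a hZ)
  rw [← Real.norm_eq_abs]
  refine (norm_tsum_le_tsum_norm (lp_term_sum h a hZ).norm).trans ?_
  refine (lp_term_sum h a hZ).norm.tsum_le_tsum (fun k => ?_) (g_sum h a hZ)
  have h1 := norm_inner_le_norm (𝕜 := ℝ) (‖vec k‖ ^ 2 • Z k) (e a k)
  rw [real_inner_smul_left] at h1
  exact h1

lemma lp_sub (h : OB F e) (a : I) {V W : Fam} {M N : ℝ} (hV : ∀ k, ‖V k‖ ≤ M)
    (hW : ∀ k, ‖W k‖ ≤ N) :
    lp (fun k => V k - W k) (e a) = lp V (e a) - lp W (e a) := by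
  unfold S2.lp
  rw [← mul_sub, ← (lp_term_sum h a hV).tsum_sub (lp_term_sum h a hW)]
  congr 1
  exact tsum_congr (fun k => by rw [inner_sub_left]; ring)

/-- expansion of the Dirichlet form -/
lemma lp_exp (h : OB F e) {Z : Fam} {M : ℝ} (hB : ∀ k, ‖Z k‖ ≤ M)
    (hZ : ∀ k, HasSum (fun a => pair Z (e a) • e a k) (Z k))
    (hu : Summable (fun a => |pair Z (e a)| * F a ^ 3)) :
    lp Z Z = ∑' a, pair Z (e a) * lp Z (e a) := by
  have h3 := fub (e := e) (b := fun a => pair Z (e a)) (X := Z3)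
    (fun k => ‖vec k‖ ^ 2 • Z k) id hZ (fun a => M * F a ^ 3)
    (by
      refine (hu.mul_left M).congr (fun a => ?_)
      ring) (fun a => g_sum h a hB) (fun a => g_tsum h a hB)
  simp only [id, real_inner_smul_left] at h3
  unfold S2.lp
  rw [h3, ← tsum_mul_left]
  exact tsum_congr (fun a => by ring)

lemma lp_nonneg (Z : Fam) : 0 ≤ lp Z Z := by
  unfold S2.lp
  refine mul_nonneg (by positivity) (tsum_nonneg fun k => ?_)
  exact mul_nonneg (by positivity) real_inner_self_nonneg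

/-! ### The energy identity for the difference of two solutions -/

theorem ident (h : OB F e) (hσ : ∀ i, σ (σ i) = i) (hs : ∀ i, s (σ i) = -s i) {V W : ℝ → Fam}
    (hV : FSol ν e σ s T V) (hW : FSol ν e σ s T W) {t₀ : ℝ} (ht₀ : t₀ ∈ Ico 0 T) :
    HasDerivWithinAt (fun τ => pair (fun k => V τ k - W τ k) (fun k => V τ k - W τ k))
      (2 * (-(ν * lp (fun k => V t₀ k - W t₀ k) (fun k => V t₀ k - W t₀ k)) +
        (bil (V t₀) (V t₀) (fun k => V t₀ k - W t₀ k) -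
          bil (W t₀) (W t₀) (fun k => V t₀ k - W t₀ k)))) (Ico 0 T) t₀ := by
  obtain ⟨D, hD, hc⟩ := h.cmp
  obtain ⟨T', hT0, hT'⟩ : ∃ T', t₀ < T' ∧ T' < T := exists_between ht₀.2
  have h0T' : 0 < T' := lt_of_le_of_lt ht₀.1 hT0
  have ht₀' : t₀ ∈ Icc 0 T' := ⟨ht₀.1, hT0.le⟩
  obtain ⟨MV, hMV⟩ := exBd6 hV hT'
  obtain ⟨MW, hMW⟩ := exBd6 hW hT'
  have hIco : ∀ t ∈ Icc 0 T', t ∈ Ico 0 T := fun t ht => ⟨ht.1, lt_of_le_of_lt ht.2 hT'⟩
  have hF0 : ∀ a, 0 < F a := fun a => by linarith [h.F1 a]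
  -- the difference
  have hZ : ∀ t ∈ Icc 0 T', Bd (MV + MW) (fun k => V t k - W t k) := fun t ht k => by
    calc (1 + ‖vec k‖) ^ 7 * ‖V t k - W t k‖ ≤ (1 + ‖vec k‖) ^ 7 * (‖V t k‖ + ‖W t k‖) := by
          gcongr
          exact norm_sub_le _ _
      _ = (1 + ‖vec k‖) ^ 7 * ‖V t k‖ + (1 + ‖vec k‖) ^ 7 * ‖W t k‖ := by ring
      _ ≤ _ := add_le_add (hMV t ht k) (hMW t ht k)
  have hrap : ∀ m : ℕ, ∃ M, ∀ t ∈ Icc 0 T', ∀ k, ‖vec k‖ ^ m * ‖V t k - W t k‖ ≤ M := fun m => by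
    obtain ⟨M1, h1⟩ := hV.rap m T' hT'
    obtain ⟨M2, h2⟩ := hW.rap m T' hT'
    refine ⟨M1 + M2, fun t ht k => ?_⟩
    calc ‖vec k‖ ^ m * ‖V t k - W t k‖ ≤ ‖vec k‖ ^ m * (‖V t k‖ + ‖W t k‖) := by
          gcongr
          exact norm_sub_le _ _
      _ = ‖vec k‖ ^ m * ‖V t k‖ + ‖vec k‖ ^ m * ‖W t k‖ := by ring
      _ ≤ _ := add_le_add (h1 t ht k) (h2 t ht k)
  have hot : ∀ t ∈ Icc 0 T', OT (fun k => V t k - W t k) := fun t ht => by
    have o1 := hV.ot t (hIco t ht)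
    have o2 := hW.ot t (hIco t ht)
    refine ⟨fun k => ?_, fun k => ?_⟩
    · rw [o1.odd, o2.odd]
      abel
    · rw [inner_sub_right, o1.tan, o2.tan, sub_zero]
  have hexp : ∀ t ∈ Icc 0 T', ∀ k, HasSum (fun a => pair (fun k => V t k - W t k) (e a) • e a k)
      (V t k - W t k) := fun t ht k =>
    h.exp (fun k => V t k - W t k) (hot t ht) (fun m => by
      obtain ⟨M, hM⟩ := hrap m
      exact ⟨M, fun k => hM t ht k⟩) k
  -- the coefficients
  obtain ⟨b, hb⟩ : ∃ b : I → ℝ → ℝ, ∀ a t, b a t = pair (V t) (e a) - pair (W t) (e a) :=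
    ⟨fun a t => pair (V t) (e a) - pair (W t) (e a), fun a t => rfl⟩
  have hbZ : ∀ t ∈ Icc 0 T', ∀ a, pair (fun k => V t k - W t k) (e a) = b a t := fun t ht a => by
    rw [hb]
    exact pair_sub h a (hMV t ht) (hMW t ht)
  have hdec : ∀ n : ℕ, ∃ A, 0 ≤ A ∧ ∀ t ∈ Icc 0 T', ∀ a, F a ^ (n + 15) * |b a t| ≤ A := by
    intro n
    obtain ⟨M, hM⟩ := hrap (12 * (n + 15 + 1))
    have hM0 : 0 ≤ M := le_trans (by positivity) (hM 0 ⟨le_rfl, h0T'.le⟩ 0)
    refine ⟨M * D ^ (n + 15 + 1), by positivity, fun t ht a => ?_⟩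
    rw [← hbZ t ht a]
    exact dec h hD hc (n + 15) (hZ t ht).sum (hM t ht) a
  obtain ⟨A0, hA0, hdec0⟩ := hdec 0
  obtain ⟨A1, hA1, hdec1⟩ := hdec 1
  obtain ⟨A2, hA2, hdec2⟩ := hdec 2
  obtain ⟨A3, hA3, hdec3⟩ := hdec 3
  have hb0 : ∀ t ∈ Icc 0 T', ∀ a, |b a t| ≤ A0 * (1 / F a ^ 15) := fun t ht a => by
    have := (w_sum h 0 (hdec0 t ht)).1 a
    simpa using this
  have hb0' : ∀ t ∈ Icc 0 T', ∀ a, |b a t| ≤ A0 := fun t ht a => by
    refine (hb0 t ht a).trans ?_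
    have h1 : 1 / F a ^ 15 ≤ 1 := by
      rw [div_le_one (pow_pos (hF0 a) 15)]
      exact one_le_pow₀ (h.F1 a)
    calc A0 * (1 / F a ^ 15) ≤ A0 * 1 := by gcongr
      _ = A0 := mul_one _
  -- bounds for the nonlinearity
  obtain ⟨CV, hCV0, hCV⟩ : ∃ C, 0 ≤ C ∧ ∀ t ∈ Icc 0 T', ∀ a, |bil (V t) (V t) (e a)| ≤ C * F a ^ 2 := by
    have hMV0 := (hMV 0 ⟨le_rfl, h0T'.le⟩).nonneg
    have hw0 : 0 ≤ ∑' k, wt k := tsum_nonneg (fun k => by unfold wt; positivity)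
    refine ⟨2 * Real.pi * (MV * (MV * ∑' k, wt k)), by positivity, fun t ht a => ?_⟩
    have hB := hMV t ht
    refine (bil_le hB.le hB.sum (e_sum1 h a)).trans ?_
    have h1 : (∑' k, ‖V t k‖) * ∑' k, ‖vec k‖ * ‖e a k‖ ≤ (MV * ∑' k, wt k) * F a ^ 2 :=
      mul_le_mul hB.tsum (e_tsum1 h a) (tsum_nonneg (fun _ => by positivity)) (by positivity)
    calc 2 * Real.pi * (MV * ((∑' k, ‖V t k‖) * ∑' k, ‖vec k‖ * ‖e a k‖))
        ≤ 2 * Real.pi * (MV * ((MV * ∑' k, wt k) * F a ^ 2)) := by gcongr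
      _ = _ := by ring
  obtain ⟨CW, hCW0, hCW⟩ : ∃ C, 0 ≤ C ∧ ∀ t ∈ Icc 0 T', ∀ a, |bil (W t) (W t) (e a)| ≤ C * F a ^ 2 := by
    have hMV0 := (hMW 0 ⟨le_rfl, h0T'.le⟩).nonneg
    have hw0 : 0 ≤ ∑' k, wt k := tsum_nonneg (fun k => by unfold wt; positivity)
    refine ⟨2 * Real.pi * (MW * (MW * ∑' k, wt k)), by positivity, fun t ht a => ?_⟩
    have hB := hMW t ht
    refine (bil_le hB.le hB.sum (e_sum1 h a)).trans ?_
    have h1 : (∑' k, ‖W t k‖) * ∑' k, ‖vec k‖ * ‖e a k‖ ≤ (MW * ∑' k, wt k) * F a ^ 2 :=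
      mul_le_mul hB.tsum (e_tsum1 h a) (tsum_nonneg (fun _ => by positivity)) (by positivity)
    calc 2 * Real.pi * (MW * ((∑' k, ‖W t k‖) * ∑' k, ‖vec k‖ * ‖e a k‖))
        ≤ 2 * Real.pi * (MW * ((MW * ∑' k, wt k) * F a ^ 2)) := by gcongr
      _ = _ := by ring
  -- the derivative of the coefficients
  obtain ⟨r, hr⟩ : ∃ r : I → ℝ → ℝ, ∀ a t, r a t =
      -(ν * lp (fun k => V t k - W t k) (e a)) +
      (bil (V t) (V t) (e a) - bil (W t) (W t) (e a)) := ⟨_, fun a t => rfl⟩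
  have hder : ∀ a, ∀ t ∈ Icc 0 T',
      HasDerivWithinAt (b a) (s a * b (σ a) t + r a t) (Icc 0 T') t := fun a t ht => by
    have h1 := (hV.eqn a t (hIco t ht)).sub (hW.eqn a t (hIco t ht))
    have h2 : (fun τ => pair (V τ) (e a)) - (fun τ => pair (W τ) (e a)) = b a := by
      funext τ
      simp only [Pi.sub_apply]
      rw [hb]
    have h3 : s a * pair (V t) (e (σ a)) - ν * lp (V t) (e a) + bil (V t) (V t) (e a) -
        (s a * pair (W t) (e (σ a)) - ν * lp (W t) (e a) + bil (W t) (W t) (e a)) =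
        s a * b (σ a) t + r a t := by
      rw [hr, hb, lp_sub h a (hMV t ht).le (hMW t ht).le]
      ring
    rw [h2, h3] at h1
    exact h1.mono hIco
  -- the bounds
  have hMZ0 : 0 ≤ MV + MW := (hZ 0 ⟨le_rfl, h0T'.le⟩).nonneg
  obtain ⟨Cr, hCr⟩ : ∃ C, C = |ν| * ((2 * Real.pi) ^ 2 * (MV + MW)) + (CV + CW) := ⟨_, rfl⟩
  have hCr0 : 0 ≤ Cr := by rw [hCr]; positivity
  have hrb : ∀ t ∈ Icc 0 T', ∀ a, |r a t| ≤ Cr * F a ^ 3 := fun t ht a => by
    have h1 := lp_le h a (hZ t ht).le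
    have h2 := hCV t ht a
    have h3 := hCW t ht a
    have hF23 : F a ^ 2 ≤ F a ^ 3 := pow_le_pow_right₀ (h.F1 a) (by norm_num)
    rw [hr, hCr]
    calc |-(ν * lp (fun k => V t k - W t k) (e a)) + (bil (V t) (V t) (e a) - bil (W t) (W t) (e a))|
        ≤ |ν| * |lp (fun k => V t k - W t k) (e a)| +
          (|bil (V t) (V t) (e a)| + |bil (W t) (W t) (e a)|) := by
          refine (abs_add_le _ _).trans (add_le_add (le_of_eq ?_) (abs_sub _ _))
          rw [abs_neg, abs_mul]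
      _ ≤ |ν| * ((2 * Real.pi) ^ 2 * ((MV + MW) * F a ^ 3)) + (CV * F a ^ 3 + CW * F a ^ 3) := by
          refine add_le_add (mul_le_mul_of_nonneg_left h1 (abs_nonneg _)) (add_le_add ?_ ?_)
          · exact h2.trans (mul_le_mul_of_nonneg_left hF23 hCV0)
          · exact h3.trans (mul_le_mul_of_nonneg_left hF23 hCW0)
      _ = _ := by ring
  have hbr : ∀ t ∈ Icc 0 T', ∀ a, |b a t * r a t| ≤ Cr * A3 * (1 / F a ^ 15) := fun t ht a => by
    have h1 := (w_sum h 3 (hdec3 t ht)).1 a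
    rw [abs_mul]
    calc |b a t| * |r a t| ≤ |b a t| * (Cr * F a ^ 3) :=
          mul_le_mul_of_nonneg_left (hrb t ht a) (abs_nonneg _)
      _ = Cr * (|b a t| * F a ^ 3) := by ring
      _ ≤ Cr * (A3 * (1 / F a ^ 15)) := mul_le_mul_of_nonneg_left h1 hCr0
      _ = _ := by ring
  have hsqb : ∀ t ∈ Icc 0 T', ∀ a, ‖b a t ^ 2‖ ≤ (A0 * A0) * (1 / F a ^ 15) := fun t ht a => by
    rw [norm_pow, Real.norm_eq_abs, pow_two]
    calc |b a t| * |b a t| ≤ A0 * (A0 * (1 / F a ^ 15)) :=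
          mul_le_mul (hb0' t ht a) (hb0 t ht a) (abs_nonneg _) hA0
      _ = _ := by ring
  have hsq : ∀ t ∈ Icc 0 T', Summable (fun a => b a t ^ 2) := fun t ht =>
    Summable.of_norm_bounded (h.summ.mul_left (A0 * A0)) (hsqb t ht)
  have hbrs : ∀ t ∈ Icc 0 T', Summable (fun a => b a t * r a t) := fun t ht =>
    Summable.of_norm_bounded (h.summ.mul_left (Cr * A3)) (fun a => hbr t ht a)
  -- the involution
  let E : I ≃ I := ⟨σ, σ, hσ, hσ⟩
  have hEσ : ∀ a, E a = σ a := fun a => rfl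
  -- the derivative of the energy
  have hE : HasDerivWithinAt (fun t => ∑' a, (b a t ^ 2 + b (σ a) t ^ 2) / 2)
      (∑' a, (b a t₀ * r a t₀ + b (σ a) t₀ * r (σ a) t₀)) (Icc 0 T') t₀ := by
    refine hasDerivWithinAt_series (f' := fun a t => b a t * r a t + b (σ a) t * r (σ a) t)
      (u := fun a => Cr * A3 * (1 / F a ^ 15) + Cr * A3 * (1 / F (σ a) ^ 15)) ht₀' ?_ ?_ ?_ ?_
    · refine (h.summ.mul_left _).add ?_
      exact ((E.summable_iff (f := fun a => 1 / F a ^ 15)).2 h.summ).mul_left _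
    · intro a t ht
      have h1 := hder a t ht
      have h2 := hder (σ a) t ht
      rw [hσ, hs] at h2
      have h3 := ((h1.mul h1).add (h2.mul h2)).div_const 2
      refine (h3.congr_deriv ?_).congr (fun x _ => ?_) ?_
      · ring
      · simp only [Pi.add_apply, Pi.mul_apply]
        ring
      · simp only [Pi.add_apply, Pi.mul_apply]
        ring
    · intro a t ht
      rw [Real.norm_eq_abs]
      exact (abs_add_le _ _).trans (add_le_add (hbr t ht a) (hbr t ht (σ a)))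
    · intro t ht
      refine ((hsq t ht).add ?_).div_const 2
      exact (E.summable_iff (f := fun a => b a t ^ 2)).2 (hsq t ht)
  -- the sums
  have hsum1 : ∀ t ∈ Icc 0 T', ∑' a, (b a t ^ 2 + b (σ a) t ^ 2) / 2 = ∑' a, b a t ^ 2 := by
    intro t ht
    have h1 : ∑' a, b (σ a) t ^ 2 = ∑' a, b a t ^ 2 := E.tsum_eq (fun a => b a t ^ 2)
    have h2 : Summable (fun a => b (σ a) t ^ 2) :=
      (E.summable_iff (f := fun a => b a t ^ 2)).2 (hsq t ht)
    rw [tsum_div_const, (hsq t ht).tsum_add h2, h1]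
    ring
  have hsum2 : ∑' a, (b a t₀ * r a t₀ + b (σ a) t₀ * r (σ a) t₀) =
      2 * ∑' a, b a t₀ * r a t₀ := by
    have h1 : ∑' a, b (σ a) t₀ * r (σ a) t₀ = ∑' a, b a t₀ * r a t₀ :=
      E.tsum_eq (fun a => b a t₀ * r a t₀)
    have h2 : Summable (fun a => b (σ a) t₀ * r (σ a) t₀) :=
      (E.summable_iff (f := fun a => b a t₀ * r a t₀)).2 (hbrs t₀ ht₀')
    rw [(hbrs t₀ ht₀').tsum_add h2, h1]
    ring
  have hpars : ∀ t ∈ Icc 0 T', pair (fun k => V t k - W t k) (fun k => V t k - W t k) =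
      ∑' a, b a t ^ 2 := fun t ht => by
    have h1 := pars h (hZ t ht) (hexp t ht) (by
      have := (w_sum h 1 (hdec1 t ht)).2
      refine this.congr (fun a => ?_)
      rw [hbZ t ht a, pow_one])
    unfold pair at h1 ⊢
    rw [tsum_congr (fun k => real_inner_self_eq_norm_sq (V t k - W t k)), h1]
    exact tsum_congr (fun a => by rw [← hbZ t ht a]; rfl)
  -- the sum of the derivatives
  have hsum3 : ∑' a, b a t₀ * r a t₀ =
      -(ν * lp (fun k => V t₀ k - W t₀ k) (fun k => V t₀ k - W t₀ k)) +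
        (bil (V t₀) (V t₀) (fun k => V t₀ k - W t₀ k) -
          bil (W t₀) (W t₀) (fun k => V t₀ k - W t₀ k)) := by
    have hu2 : Summable (fun a => |pair (fun k => V t₀ k - W t₀ k) (e a)| * F a ^ 2) := by
      refine (w_sum h 2 (hdec2 t₀ ht₀')).2.congr (fun a => ?_)
      rw [hbZ t₀ ht₀' a]
    have hu3 : Summable (fun a => |pair (fun k => V t₀ k - W t₀ k) (e a)| * F a ^ 3) := by
      refine (w_sum h 3 (hdec3 t₀ ht₀')).2.congr (fun a => ?_)
      rw [hbZ t₀ ht₀' a]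
    have e1 := bil_exp h (hMV t₀ ht₀') (hexp t₀ ht₀') hu2
    have e2 := bil_exp h (hMW t₀ ht₀') (hexp t₀ ht₀') hu2
    have e3 := lp_exp h (hZ t₀ ht₀').le (hexp t₀ ht₀') hu3
    have hs1 : Summable (fun a => pair (fun k => V t₀ k - W t₀ k) (e a) *
        bil (V t₀) (V t₀) (e a)) := by
      refine Summable.of_norm_bounded (hu2.mul_left CV) (fun a => ?_)
      rw [norm_mul, Real.norm_eq_abs, Real.norm_eq_abs]
      calc _ ≤ |pair (fun k => V t₀ k - W t₀ k) (e a)| * (CV * F a ^ 2) :=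
            mul_le_mul_of_nonneg_left (hCV t₀ ht₀' a) (abs_nonneg _)
        _ = _ := by ring
    have hs2 : Summable (fun a => pair (fun k => V t₀ k - W t₀ k) (e a) *
        bil (W t₀) (W t₀) (e a)) := by
      refine Summable.of_norm_bounded (hu2.mul_left CW) (fun a => ?_)
      rw [norm_mul, Real.norm_eq_abs, Real.norm_eq_abs]
      calc _ ≤ |pair (fun k => V t₀ k - W t₀ k) (e a)| * (CW * F a ^ 2) :=
            mul_le_mul_of_nonneg_left (hCW t₀ ht₀' a) (abs_nonneg _)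
        _ = _ := by ring
    have hs3 : Summable (fun a => pair (fun k => V t₀ k - W t₀ k) (e a) *
        lp (fun k => V t₀ k - W t₀ k) (e a)) := by
      refine Summable.of_norm_bounded (hu3.mul_left ((2 * Real.pi) ^ 2 * (MV + MW))) (fun a => ?_)
      rw [norm_mul, Real.norm_eq_abs, Real.norm_eq_abs]
      calc _ ≤ |pair (fun k => V t₀ k - W t₀ k) (e a)| *
            ((2 * Real.pi) ^ 2 * ((MV + MW) * F a ^ 3)) :=
            mul_le_mul_of_nonneg_left (lp_le h a (hZ t₀ ht₀').le) (abs_nonneg _)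
        _ = _ := by ring
    have e4 : ∑' a, b a t₀ * r a t₀ = ∑' a, (-(ν * (pair (fun k => V t₀ k - W t₀ k) (e a) *
        lp (fun k => V t₀ k - W t₀ k) (e a))) +
        (pair (fun k => V t₀ k - W t₀ k) (e a) * bil (V t₀) (V t₀) (e a) -
          pair (fun k => V t₀ k - W t₀ k) (e a) * bil (W t₀) (W t₀) (e a))) :=
      tsum_congr (fun a => by
        rw [hr, hbZ t₀ ht₀' a]
        ring)
    rw [e4, (hs3.mul_left ν).neg.tsum_add (hs1.sub hs2), hs1.tsum_sub hs2, tsum_neg,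
      tsum_mul_left, e1, e2, e3]
  have hfin := hE
  rw [hsum2, hsum3] at hfin
  refine (hfin.congr (fun t ht => ?_) ?_).mono_of_mem_nhdsWithin ?_
  · rw [hpars t ht, hsum1 t ht]
  · rw [hpars t₀ ht₀', hsum1 t₀ ht₀']
  · exact mem_nhdsWithin.2 ⟨Iio T', isOpen_Iio, hT0, fun x hx => ⟨hx.2.1, hx.1.le⟩⟩

/-- uniqueness -/
theorem uni (h : OB F e) (hσ : ∀ i, σ (σ i) = i) (hs : ∀ i, s (σ i) = -s i) (hν : 0 ≤ ν)
    {V W : ℝ → Fam} (hV : FSol ν e σ s T V) (hW : FSol ν e σ s T W) (h0 : ∀ k, V 0 k = W 0 k) :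
    ∀ t ∈ Ico 0 T, ∀ k, V t k = W t k := by
  intro t₀ ht₀
  obtain ⟨T', hT0, hT'⟩ : ∃ T', t₀ < T' ∧ T' < T := exists_between ht₀.2
  have h0T' : 0 < T' := lt_of_le_of_lt ht₀.1 hT0
  obtain ⟨MV, hMV⟩ := exBd6 hV hT'
  obtain ⟨MW, hMW⟩ := exBd6 hW hT'
  have hIco : ∀ t ∈ Icc 0 T', t ∈ Ico 0 T := fun t ht => ⟨ht.1, lt_of_le_of_lt ht.2 hT'⟩
  have hZ : ∀ t ∈ Icc 0 T', Bd (MV + MW) (fun k => V t k - W t k) := fun t ht k => by
    calc (1 + ‖vec k‖) ^ 7 * ‖V t k - W t k‖ ≤ (1 + ‖vec k‖) ^ 7 * (‖V t k‖ + ‖W t k‖) := by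
          gcongr
          exact norm_sub_le _ _
      _ = (1 + ‖vec k‖) ^ 7 * ‖V t k‖ + (1 + ‖vec k‖) ^ 7 * ‖W t k‖ := by ring
      _ ≤ _ := add_le_add (hMV t ht k) (hMW t ht k)
  have hot : ∀ t ∈ Icc 0 T', OT (fun k => V t k - W t k) := fun t ht => by
    have o1 := hV.ot t (hIco t ht)
    have o2 := hW.ot t (hIco t ht)
    refine ⟨fun k => ?_, fun k => ?_⟩
    · rw [o1.odd, o2.odd]
      abel
    · rw [inner_sub_right, o1.tan, o2.tan, sub_zero]
  obtain ⟨N, hN⟩ : ∃ N : ℝ → ℝ, ∀ t, N t =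
    pair (fun k => V t k - W t k) (fun k => V t k - W t k) := ⟨_, fun t => rfl⟩
  have hN2 : ∀ t, N t = ∑' k, ‖V t k - W t k‖ ^ 2 := fun t => by
    rw [hN]
    unfold pair
    exact tsum_congr (fun k => real_inner_self_eq_norm_sq (V t k - W t k))
  have hNd : ∀ t ∈ Ico 0 T, HasDerivWithinAt N
      (2 * (-(ν * lp (fun k => V t k - W t k) (fun k => V t k - W t k)) +
        (bil (V t) (V t) (fun k => V t k - W t k) -
          bil (W t) (W t) (fun k => V t k - W t k)))) (Ico 0 T) t := by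
    intro t ht
    have h1 := ident h hσ hs hV hW ht
    have h2 : N = fun τ => pair (fun k => V τ k - W τ k) (fun k => V τ k - W τ k) := funext hN
    rw [h2]
    exact h1
  obtain ⟨C, hC⟩ : ∃ C, C = 2 * (2 * Real.pi * (MV * ∑' k, wt k)) := ⟨_, rfl⟩
  have hineq : ∀ t ∈ Icc 0 T', 2 * (-(ν * lp (fun k => V t k - W t k) (fun k => V t k - W t k)) +
        (bil (V t) (V t) (fun k => V t k - W t k) -
          bil (W t) (W t) (fun k => V t k - W t k))) ≤ C * N t := by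
    intro t ht
    have h3 := bil_diff (hMV t ht) (hMW t ht)
    have h4 : bil (W t) (fun k => V t k - W t k) (fun k => V t k - W t k) = 0 := by
      have := bil_anti (W t) (fun k => V t k - W t k) (fun k => V t k - W t k)
        (hW.ot t (hIco t ht))
      linarith
    have h5 := bil_anti (fun k => V t k - W t k) (V t) (fun k => V t k - W t k) (hot t ht)
    have h6 := bil_energy (hZ t ht) (hMV t ht)
    have h7 : (∑' k, ‖vec k‖ * ‖V t k‖) * ∑' k, ‖V t k - W t k‖ ^ 2 ≤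
        (MV * ∑' k, wt k) * ∑' k, ‖V t k - W t k‖ ^ 2 :=
      mul_le_mul_of_nonneg_right (hMV t ht).tsum1 (tsum_nonneg (fun _ => by positivity))
    have h8 : |bil (fun k => V t k - W t k) (fun k => V t k - W t k) (V t)| ≤
        2 * Real.pi * ((MV * ∑' k, wt k) * ∑' k, ‖V t k - W t k‖ ^ 2) :=
      h6.trans (mul_le_mul_of_nonneg_left h7 Real.two_pi_pos.le)
    have h9 := neg_abs_le (bil (fun k => V t k - W t k) (fun k => V t k - W t k) (V t))
    have h10 := mul_nonneg hν (lp_nonneg (fun k => V t k - W t k))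
    rw [h3, h4, add_zero, h5, hN2, hC]
    calc _ ≤ 2 * (2 * Real.pi * ((MV * ∑' k, wt k) * ∑' k, ‖V t k - W t k‖ ^ 2)) := by linarith
      _ = _ := by ring
  -- Gronwall
  have hcont : ContinuousOn N (Icc 0 T') := fun t ht =>
    ((hNd t (hIco t ht)).continuousWithinAt).mono (fun s hs => hIco s hs)
  have hder' : ∀ t ∈ Ioo 0 T', HasDerivAt N
      (2 * (-(ν * lp (fun k => V t k - W t k) (fun k => V t k - W t k)) +
        (bil (V t) (V t) (fun k => V t k - W t k) -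
          bil (W t) (W t) (fun k => V t k - W t k)))) t := fun t ht =>
    (hNd t ⟨ht.1.le, ht.2.trans hT'⟩).hasDerivAt (Ico_mem_nhds ht.1 (ht.2.trans hT'))
  have hanti : AntitoneOn (fun t => N t * Real.exp (-C * t)) (Icc 0 T') := by
    refine antitoneOn_of_deriv_nonpos (convex_Icc 0 T')
      (hcont.mul (by fun_prop)) ?_ ?_
    · rw [interior_Icc]
      intro t ht
      exact ((hder' t ht).differentiableAt.mul (by fun_prop)).differentiableWithinAt
    · rw [interior_Icc]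
      intro t ht
      have h1 : HasDerivAt (fun t : ℝ => Real.exp (-C * t)) (Real.exp (-C * t) * (-C * 1)) t :=
        ((hasDerivAt_id t).const_mul (-C)).exp
      have h2 := (hder' t ht).mul h1
      have h3 : deriv (fun t => N t * Real.exp (-C * t)) t = _ := h2.deriv
      rw [h3]
      have h4 := hineq t (Ioo_subset_Icc_self ht)
      have h5 := Real.exp_pos (-C * t)
      nlinarith
  have hN0 : N 0 = 0 := by
    rw [hN2]
    have : ∀ k, ‖V 0 k - W 0 k‖ ^ 2 = 0 := fun k => by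
      rw [h0 k, sub_self, norm_zero]
      ring
    rw [tsum_congr this, tsum_zero]
  have ht₀' : t₀ ∈ Icc 0 T' := ⟨ht₀.1, hT0.le⟩
  have hle := hanti (⟨le_rfl, h0T'.le⟩ : (0:ℝ) ∈ Icc 0 T') ht₀' ht₀.1
  simp only [hN0, zero_mul] at hle
  have hEt : N t₀ ≤ 0 := by
    by_contra hcon
    push Not at hcon
    have := mul_pos hcon (Real.exp_pos (-C * t₀))
    linarith
  intro k
  have h1 := (hZ t₀ ht₀').sq.le_tsum k (fun _ _ => by positivity)
  rw [hN2] at hEt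
  have h2 : ‖V t₀ k - W t₀ k‖ ^ 2 = 0 := le_antisymm (h1.trans hEt) (by positivity)
  have h3 : ‖V t₀ k - W t₀ k‖ = 0 := by
    rcases pow_eq_zero_iff (two_ne_zero) |>.1 h2 with h
    exact h
  exact sub_eq_zero.1 (norm_eq_zero.1 h3)

/-- zero is a solution -/
lemma zero_sol : FSol ν e σ s T (fun _ _ => 0) := by
  have hp : ∀ Y : Fam, pair (fun _ => 0) Y = 0 := fun Y => by
    unfold pair
    simp
  refine ⟨fun t _ => ⟨fun k => by simp, fun k => by simp⟩, fun m T' _ => ⟨0, fun t _ k => by simp⟩,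
    fun i t _ => ?_⟩
  have h1 : s i * pair (fun _ => 0) (e (σ i)) - ν * lp (fun _ => 0) (e i) +
      bil (fun _ => 0) (fun _ => 0) (e i) = 0 := by
    rw [hp]
    unfold S2.lp bil
    simp
  rw [h1]
  simp only [hp]
  exact hasDerivWithinAt_const _ _ _

/-- the energy identity -/
theorem energy (h : OB F e) (hσ : ∀ i, σ (σ i) = i) (hs : ∀ i, s (σ i) = -s i)
    {V : ℝ → Fam} (hV : FSol ν e σ s T V) {t : ℝ} (ht : t ∈ Ico 0 T) :
    HasDerivWithinAt (fun τ => pair (V τ) (V τ)) (-(2 * (ν * lp (V t) (V t)))) (Ico 0 T) t := by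
  have h1 := ident h hσ hs hV (zero_sol (ν := ν) (e := e) (σ := σ) (s := s) (T := T)) ht
  have h2 : ∀ τ, (fun k => V τ k - (0 : E3)) = V τ := fun τ => funext fun k => sub_zero _
  simp only [h2] at h1
  have h3 : bil (V t) (V t) (V t) = 0 := by
    have := bil_anti (V t) (V t) (V t) (hV.ot t ht)
    linarith
  have h4 : bil (fun _ => 0) (fun _ => 0) (V t) = 0 := by
    unfold bil
    simp
  refine h1.congr_deriv ?_
  rw [h3, h4]
  ring

end

/-- **UNI6** -/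
theorem t_UNI6 : S_UNI6 := by
  intro I F e σ s ν T h hσ hs hν
  exact ⟨fun V W hV hW h0 => uni h hσ hs hν hV hW h0, fun V hV t ht => energy h hσ hs hV ht⟩

end Pool.Agent.Z864.S2
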